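import Pool.Agent.MQG.LiteD

set_option autoImplicit false

/-!
# MP_a4f485_an, Q1: a full (positive) answer

For every quantum group `G` given by a manageable multiplicative unitary `W` on a separable Hilbert
space `H = ℓ²(ι)`, in particular for every second countable locally compact quantum group: `G` is
amenable and the dual quantum group `G^` has the Haagerup property if and only if `(S_λ)` holds.

All the definitions are in `Pool/Agent/MQG/Lite.lean`.
-/

namespace Pool.Agent.Results.MP_a4f485_an.SemigroupLambda

open Pool.Agent.MQG.Lite

/-- Let `M` be a manageable multiplicative unitary `W` on `H = ℓ²(ι)` with `ι` countable.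
A universal unitary `U` exists. For every universal unitary `U` (so that `Al U = C_0^u(G)` and
`Du U` is its dual) the operators `λ(μ) = (μ ⊗ id)(U)` exist and are unique, the map `λ = lam U` is
injective, the counit and the convolution product are the functionals with `λ(ε) = 1` and
`λ(μ ⋆ ν) = λ(μ) λ(ν)`, and `G` is amenable and `G^` has the Haagerup property if and only if there
is a weak* continuous convolution semigroup of states as in condition `(S_λ)`. -/
theorem result (ι : Type) [Countable ι] [Nonempty ι] (M : MU ι) :
    (∃ (κ : Type) (U : BOp (κ × ι)), Universal M.W U) ∧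
    ∀ (κ : Type) (U : BOp (κ × ι)), Universal M.W U →
      ((∀ μ L, IsLam U μ L ↔ L = lam U μ) ∧ Function.Injective (lam U) ∧ lam U (counit U) = 1 ∧
        ∀ μ ν, lam U (conv U μ ν) = lam U μ * lam U ν) ∧
      ((Amenable M.W U ∧ Haagerup M.W U (lam U)) ↔ CondS M.W U (lam U)) :=
  ⟨exists_universal M, fun _ U hU => ⟨lam_facts M U hU, q1 M U hU⟩⟩

end Pool.Agent.Results.MP_a4f485_an.SemigroupLambda
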