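import Pool.Agent.MQG.LiteD

set_option autoImplicit false

/-!
# MP_a4f485_an, Q2: a full (positive) answer

For every quantum group `G` given by a manageable multiplicative unitary `W` on a separable Hilbert
space `H = ℓ²(ι)`, in particular for every second countable locally compact quantum group: `G` is
amenable and the dual quantum group `G^` has the Haagerup property if and only if `(S_λ~)` holds,
where `λ~(μ)` is the value at `i/4` of the scaling group of `G^` on `λ(μ)`.

All the definitions are in `Pool/Agent/MQG/Lite.lean`.
-/

namespace Pool.Agent.Results.MP_a4f485_an.SemigroupTwisted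

open Pool.Agent.MQG.Lite

/-- Let `M` be a manageable multiplicative unitary `W` on `H = ℓ²(ι)` with `ι` countable.
A universal unitary `U` exists. For every universal unitary `U` (so that `Al U = C_0^u(G)` and
`Du U` is its dual) the operators `λ(μ) = (μ ⊗ id)(U)` exist and are unique, the map `λ = lam U` is
injective, the counit and the convolution product are the functionals with `λ(ε) = 1` and
`λ(μ ⋆ ν) = λ(μ) λ(ν)`. For every `μ` there is exactly one operator `λ~(μ) = τ^_{i/4}(λ(μ))`, the
Haagerup property of `G^` holds with `λ` if and only if it holds with `λ~`, and `G` is amenable and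
`G^` has the Haagerup property if and only if there is a weak* continuous convolution semigroup of
states as in condition `(S_λ~)`. -/
theorem result (ι : Type) [Countable ι] [Nonempty ι] (M : MU ι) :
    (∃ (κ : Type) (U : BOp (κ × ι)), Universal M.W U) ∧
    ∀ (κ : Type) (U : BOp (κ × ι)), Universal M.W U →
      ((∀ μ L, IsLam U μ L ↔ L = lam U μ) ∧ Function.Injective (lam U) ∧ lam U (counit U) = 1 ∧
        ∀ μ ν, lam U (conv U μ ν) = lam U μ * lam U ν) ∧
      ∃ lamt : Du U → BOp ι, (∀ μ b, IsTau M.V (1 / 4) (lam U μ) b ↔ b = lamt μ) ∧
        (Haagerup M.W U (lam U) ↔ Haagerup M.W U lamt) ∧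
        ((Amenable M.W U ∧ Haagerup M.W U (lam U)) ↔ CondS M.W U lamt) :=
  ⟨exists_universal M, fun _ U hU => ⟨lam_facts M U hU, q2 M U hU⟩⟩

end Pool.Agent.Results.MP_a4f485_an.SemigroupTwisted
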